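import Mathlib
import Pool.Agent.StackedBooks.Core

/-!
# Which odd stacked books are graceful

The stacked book `S_{2m+1} × P_n` with `n ≥ 2` is graceful if and only if it is not the case that
`n = 2` and `m` is odd.

The labelings are built in sum form: the labels `a` of one side of the bipartition and `q - b` of
the other side are such that the sums `a + b` along the edges are distinct and less than the number
`q` of edges, and that every `a` plus every `b` is less than `q`.  A block of two layers can be put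
in front of every such labeling.  The other pieces are one layer, two layers for `2m+1 = 1 mod 4`
(from Skolem sequences) and four layers for `2m+1 = 3 mod 4`; see `Pool.Agent.StackedBooks.Core`.
-/

set_option autoImplicit false

namespace Pool.Agent.Results.MP_31789d_co.StackedBooks

open SimpleGraph Pool.Agent.StackedBooks

/-- A graph with finitely many edges, `q` in number, is graceful if its vertices have distinct
labels among `0, ..., q` such that distinct edges get distinct absolute differences. -/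
def Graceful {V : Type} (G : SimpleGraph V) : Prop :=
  ∃ f : V → ℕ, Function.Injective f ∧ (∀ v, f v ≤ G.edgeSet.ncard) ∧
    ∀ u v u' v' : V, G.Adj u v → G.Adj u' v' →
      |(f u : ℤ) - (f v : ℤ)| = |(f u' : ℤ) - (f v' : ℤ)| → s(u, v) = s(u', v')

/-- The stacked book: the Cartesian product of the star with `k` leaves (the vertices are
`Fin (k + 1)` and the centre is `0`) and of the path with `n` vertices. -/
def stackedBook (k n : ℕ) : SimpleGraph (Fin (k + 1) × Fin n) :=
  starGraph (0 : Fin (k + 1)) □ pathGraph n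

/-! ### The number of edges -/

lemma sum_degree_star (k : ℕ) [DecidableRel (starGraph (0 : Fin (k + 1))).Adj] :
    ∑ a, (starGraph (0 : Fin (k + 1))).degree a = 2 * k := by
  rw [sum_degrees_eq_twice_card_edges]
  have h := (isTree_starGraph (0 : Fin (k + 1))).card_edgeFinset
  rw [Fintype.card_fin] at h
  omega

lemma sum_degree_path (l : ℕ) [DecidableRel (pathGraph (l + 1)).Adj] :
    ∑ i, (pathGraph (l + 1)).degree i = 2 * l := by
  have h : ∀ i : Fin (l + 1), (pathGraph (l + 1)).degree i =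
      (Finset.univ.filter fun j : Fin (l + 1) => i.val + 1 = j.val).card +
      (Finset.univ.filter fun j : Fin (l + 1) => j.val + 1 = i.val).card := by
    intro i
    rw [← Finset.card_union_of_disjoint]
    · rw [← card_neighborFinset_eq_degree]
      congr 1
      ext j
      simp [pathGraph_adj]
    · rw [Finset.disjoint_filter]
      intro j _ h1 h2
      omega
  simp_rw [h]
  rw [Finset.sum_add_distrib]
  have h1 : ∑ i : Fin (l + 1), (Finset.univ.filter fun j : Fin (l + 1) => i.val + 1 = j.val).card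
      = l := by
    rw [Fin.sum_univ_castSucc]
    have h2 : ∀ i : Fin l, (Finset.univ.filter fun j : Fin (l + 1) =>
        (Fin.castSucc i).val + 1 = j.val).card = 1 := by
      intro i
      rw [Finset.card_eq_one]
      refine ⟨i.succ, ?_⟩
      ext j
      simp only [Finset.mem_filter, Finset.mem_univ, true_and, Finset.mem_singleton, Fin.ext_iff,
        Fin.val_castSucc, Fin.val_succ]
      omega
    have h3 : (Finset.univ.filter fun j : Fin (l + 1) =>
        (Fin.last l).val + 1 = j.val).card = 0 := by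
      rw [Finset.card_eq_zero, Finset.filter_eq_empty_iff]
      intro j _
      have := j.isLt
      simp only [Fin.val_last]
      omega
    simp_rw [h2, h3]
    simp
  have h4 : ∑ i : Fin (l + 1), (Finset.univ.filter fun j : Fin (l + 1) => j.val + 1 = i.val).card
      = l := by
    rw [Fin.sum_univ_succ]
    have h2 : ∀ i : Fin l, (Finset.univ.filter fun j : Fin (l + 1) =>
        j.val + 1 = (Fin.succ i).val).card = 1 := by
      intro i
      rw [Finset.card_eq_one]
      refine ⟨i.castSucc, ?_⟩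
      ext j
      simp only [Finset.mem_filter, Finset.mem_univ, true_and, Finset.mem_singleton, Fin.ext_iff,
        Fin.val_castSucc, Fin.val_succ]
      omega
    have h3 : (Finset.univ.filter fun j : Fin (l + 1) =>
        j.val + 1 = (0 : Fin (l + 1)).val).card = 0 := by
      rw [Finset.card_eq_zero, Finset.filter_eq_empty_iff]
      intro j _
      simp
    simp_rw [h2, h3]
    simp
  rw [h1, h4]
  ring

lemma ncard_edges (k n : ℕ) (hn : 0 < n) :
    (stackedBook k n).edgeSet.ncard = Pool.Agent.StackedBooks.q k n := by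
  classical
  obtain ⟨l, rfl⟩ : ∃ l, n = l + 1 := ⟨n - 1, by omega⟩
  rw [Set.ncard_eq_toFinset_card']
  have h1 := (stackedBook k (l + 1)).sum_degrees_eq_twice_card_edges
  obtain ⟨d1, hd1⟩ : ∃ d1 : Fin (k + 1) → ℕ, d1 = fun a => (starGraph (0 : Fin (k + 1))).degree a :=
    ⟨_, rfl⟩
  obtain ⟨d2, hd2⟩ : ∃ d2 : Fin (l + 1) → ℕ, d2 = fun a => (pathGraph (l + 1)).degree a :=
    ⟨_, rfl⟩
  have h2 : ∀ x, (stackedBook k (l + 1)).degree x = d1 x.1 + d2 x.2 := by
    intro x
    rw [hd1, hd2]
    have h := degree_boxProd (G := starGraph (0 : Fin (k + 1))) (H := pathGraph (l + 1)) x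
    have h' : ∀ i1 i2 : Fintype ((starGraph (0 : Fin (k + 1)) □ pathGraph (l + 1)).neighborSet x),
        @degree _ _ x i1 = @degree _ _ x i2 := by
      intro i1 i2
      rw [Subsingleton.elim i1 i2]
    exact (h' _ _).trans h
  simp_rw [h2] at h1
  rw [Fintype.sum_prod_type] at h1
  simp only [Finset.sum_add_distrib, Finset.sum_const, Finset.card_univ, Fintype.card_fin,
    smul_eq_mul] at h1
  have e1 : ∑ a, d1 a = 2 * k := by rw [hd1]; exact sum_degree_star k
  have e2 : ∑ a, d2 a = 2 * l := by rw [hd2]; exact sum_degree_path l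
  rw [← Finset.mul_sum, e1, e2] at h1
  have h3 : Pool.Agent.StackedBooks.q k (l + 1) = k * (2 * l + 1) + l := by
    unfold Pool.Agent.StackedBooks.q
    have : 2 * (l + 1) - 1 = 2 * l + 1 := by omega
    rw [this]
    omega
  rw [h3]
  have h4 : (l + 1) * (2 * k) + (k + 1) * (2 * l) = 2 * (k * (2 * l + 1) + l) := by ring
  rw [h4] at h1
  have h5 : (stackedBook k (l + 1)).edgeFinset.card = k * (2 * l + 1) + l := by omega
  rw [← h5]
  rfl


/-! ### From a labeling in sum form to a graceful labeling -/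

/-- The number attached to a vertex by a labeling in sum form. -/
def val {k n : ℕ} (c : ℕ → ℕ) (L : ℕ → ℕ → ℕ) (x : Fin (k + 1) × Fin n) : ℕ :=
  if x.1.val = 0 then c x.2.val else L x.2.val (x.1.val - 1)

/-- The vertex belongs to the first side of the bipartition. -/
def IsA {k n : ℕ} (x : Fin (k + 1) × Fin n) : Prop :=
  (x.1.val = 0 ∧ x.2.val % 2 = 0) ∨ (x.1.val ≠ 0 ∧ x.2.val % 2 = 1)

instance {k n : ℕ} (x : Fin (k + 1) × Fin n) : Decidable (IsA x) := by
  unfold IsA; infer_instance

/-- The graceful label of a vertex. -/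
def lab {k n : ℕ} (c : ℕ → ℕ) (L : ℕ → ℕ → ℕ) (x : Fin (k + 1) × Fin n) : ℕ :=
  if IsA x then val c L x else q k n - val c L x

/-- The edge index `e` denotes the edge from `u` to `v`. -/
def Rep {k n : ℕ} (e : Ed) (u v : Fin (k + 1) × Fin n) : Prop :=
  match e with
  | .sp i j => u.1.val = 0 ∧ v.1.val = j + 1 ∧ u.2.val = i ∧ v.2.val = i
  | .cr i => u.1.val = 0 ∧ v.1.val = 0 ∧ u.2.val = i ∧ v.2.val = i + 1
  | .pr i j => u.1.val = j + 1 ∧ v.1.val = j + 1 ∧ u.2.val = i ∧ v.2.val = i + 1

lemma rep_unique {k n : ℕ} {e : Ed} {u v u' v' : Fin (k + 1) × Fin n} (h : Rep e u v)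
    (h' : Rep e u' v') : u = u' ∧ v = v' := by
  rcases e with ⟨i, j⟩ | ⟨i⟩ | ⟨i, j⟩ <;> simp only [Rep] at h h' <;>
    simp only [Prod.ext_iff, Fin.ext_iff] <;> omega

lemma rep_of_adj {k n : ℕ} {u v : Fin (k + 1) × Fin n} (h : (stackedBook k n).Adj u v) :
    ∃ e, Ed.Valid k n e ∧ (Rep e u v ∨ Rep e v u) := by
  have hu := u.2.isLt
  have hv := v.2.isLt
  have hu1 := u.1.isLt
  have hv1 := v.1.isLt
  rw [stackedBook, boxProd_adj, starGraph_adj, pathGraph_adj] at h
  rcases h with ⟨⟨h1, h2⟩, h3⟩ | ⟨h1, h2⟩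
  · have h1' : u.1.val ≠ v.1.val := fun h => h1 (Fin.ext h)
    have h3' : u.2.val = v.2.val := by rw [h3]
    rcases h2 with h2 | h2
    · have h2' : u.1.val = 0 := by rw [h2]; rfl
      refine ⟨.sp u.2.val (v.1.val - 1), ⟨hu, by omega⟩, Or.inl ?_⟩
      exact (show _ ∧ _ ∧ _ ∧ _ from ⟨by omega, by omega, by omega, by omega⟩)
    · have h2' : v.1.val = 0 := by rw [h2]; rfl
      refine ⟨.sp u.2.val (u.1.val - 1), ⟨hu, by omega⟩, Or.inr ?_⟩
      exact (show _ ∧ _ ∧ _ ∧ _ from ⟨by omega, by omega, by omega, by omega⟩)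
  · have h2' : u.1.val = v.1.val := by rw [h2]
    rcases Nat.eq_zero_or_pos u.1.val with h0 | h0
    · rcases h1 with h1 | h1
      · refine ⟨.cr u.2.val, by simp only [Ed.Valid]; omega, Or.inl ?_⟩
        exact (show _ ∧ _ ∧ _ ∧ _ from ⟨by omega, by omega, by omega, by omega⟩)
      · refine ⟨.cr v.2.val, by simp only [Ed.Valid]; omega, Or.inr ?_⟩
        exact (show _ ∧ _ ∧ _ ∧ _ from ⟨by omega, by omega, by omega, by omega⟩)
    · rcases h1 with h1 | h1
      · refine ⟨.pr u.2.val (u.1.val - 1), by simp only [Ed.Valid]; omega, Or.inl ?_⟩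
        exact (show _ ∧ _ ∧ _ ∧ _ from ⟨by omega, by omega, by omega, by omega⟩)
      · refine ⟨.pr v.2.val (u.1.val - 1), by simp only [Ed.Valid]; omega, Or.inr ?_⟩
        exact (show _ ∧ _ ∧ _ ∧ _ from ⟨by omega, by omega, by omega, by omega⟩)

lemma rep_sum {k n : ℕ} {e : Ed} {u v : Fin (k + 1) × Fin n} (c : ℕ → ℕ) (L : ℕ → ℕ → ℕ)
    (h : Rep e u v) : val c L u + val c L v = Ed.sum c L e := by
  rcases e with ⟨i, j⟩ | ⟨i⟩ | ⟨i, j⟩ <;> simp only [Rep] at h <;>
    obtain ⟨h1, h2, h3, h4⟩ := h <;> simp [val, Ed.sum, h1, h2, h3, h4]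

lemma rep_isA {k n : ℕ} {e : Ed} {u v : Fin (k + 1) × Fin n} (h : Rep e u v) :
    IsA u ↔ ¬ IsA v := by
  rcases e with ⟨i, j⟩ | ⟨i⟩ | ⟨i, j⟩ <;> simp only [Rep] at h <;> simp only [IsA] <;> omega

lemma rep_lab {k n : ℕ} {e : Ed} {u v : Fin (k + 1) × Fin n} {c : ℕ → ℕ} {L : ℕ → ℕ → ℕ}
    (hg : Good k n c L) (hv : Ed.Valid k n e) (h : Rep e u v) :
    |(lab c L u : ℤ) - (lab c L v : ℤ)| = (q k n : ℤ) - (Ed.sum c L e : ℤ) := by
  have h1 := rep_sum c L h
  have h2 := rep_isA h
  have h3 := hg.sumlt e hv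
  have h4 : val c L u ≤ q k n := by omega
  have h5 : val c L v ≤ q k n := by omega
  by_cases hu : IsA u
  · have hv' : ¬ IsA v := h2.1 hu
    simp only [lab, hu, hv', if_true, if_false]
    rw [abs_of_nonpos (by omega)]
    omega
  · have hv' : IsA v := by
      by_contra hc
      exact hu (h2.2 hc)
    simp only [lab, hu, hv', if_true, if_false]
    rw [abs_of_nonneg (by omega)]
    omega

lemma val_le {k n : ℕ} {c : ℕ → ℕ} {L : ℕ → ℕ → ℕ} (hg : Good k n c L) :
    ∃ M N, M + N < q k n ∧ (∀ x : Fin (k + 1) × Fin n, IsA x → val c L x ≤ M) ∧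
      (∀ x : Fin (k + 1) × Fin n, ¬ IsA x → val c L x ≤ N) := by
  obtain ⟨M, N, h0, h1, h2, h3, h4⟩ := hg.bound
  refine ⟨M, N, h0, ?_, ?_⟩
  · rintro ⟨a, i⟩ hx
    have := a.isLt
    simp only [IsA] at hx
    simp only [val]
    split_ifs with ha
    · exact h1 _ i.isLt (by omega)
    · exact h3 _ _ i.isLt (by omega) (by omega)
  · rintro ⟨a, i⟩ hx
    have := a.isLt
    simp only [IsA] at hx
    simp only [val]
    split_ifs with ha
    · exact h2 _ i.isLt (by omega)
    · exact h4 _ _ i.isLt (by omega) (by omega)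

lemma val_inj {k n : ℕ} {c : ℕ → ℕ} {L : ℕ → ℕ → ℕ} (hg : Good k n c L)
    {x y : Fin (k + 1) × Fin n} (hxy : IsA x ↔ IsA y) (h : val c L x = val c L y) : x = y := by
  obtain ⟨a, i⟩ := x
  obtain ⟨b, j⟩ := y
  have ha := a.isLt
  have hb := b.isLt
  have hi := i.isLt
  have hj := j.isLt
  simp only [IsA] at hxy
  simp only [val] at h
  simp only [Prod.ext_iff, Fin.ext_iff]
  split_ifs at h with h1 h2 h2
  · exact ⟨by omega, hg.cinj _ _ hi hj (by omega) h⟩
  · exact absurd h (hg.clne _ _ _ hi hj (by omega) (by omega))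
  · exact absurd h.symm (hg.clne _ _ _ hj hi (by omega) (by omega))
  · have := hg.linj _ _ _ _ hi hj (by omega) (by omega) (by omega) h
    omega

theorem graceful_of_good {k n : ℕ} {c : ℕ → ℕ} {L : ℕ → ℕ → ℕ} (hg : Good k n c L) :
    Graceful (stackedBook k n) := by
  obtain ⟨M, N, h0, hM, hN⟩ := val_le hg
  refine ⟨lab c L, ?_, ?_, ?_⟩
  · intro x y h
    by_cases hx : IsA x <;> by_cases hy : IsA y
    · simp only [lab, hx, hy, if_true] at h
      exact val_inj hg (iff_of_true hx hy) h
    · have := hM x hx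
      have := hN y hy
      simp only [lab, hx, hy, if_true, if_false] at h
      omega
    · have := hM y hy
      have := hN x hx
      simp only [lab, hx, hy, if_true, if_false] at h
      omega
    · have := hN x hx
      have := hN y hy
      simp only [lab, hx, hy, if_false] at h
      exact val_inj hg (iff_of_false hx hy) (by omega)
  · intro x
    rw [ncard_edges k n hg.npos]
    by_cases hx : IsA x
    · have := hM x hx
      simp only [lab, hx, if_true]
      omega
    · simp only [lab, hx, if_false]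
      omega
  · intro u v u' v' h h' hl
    obtain ⟨e, hv, he⟩ := rep_of_adj h
    obtain ⟨e', hv', he'⟩ := rep_of_adj h'
    have h1 : |(lab c L u : ℤ) - (lab c L v : ℤ)| = (q k n : ℤ) - (Ed.sum c L e : ℤ) := by
      rcases he with he | he
      · exact rep_lab hg hv he
      · rw [abs_sub_comm]; exact rep_lab hg hv he
    have h2 : |(lab c L u' : ℤ) - (lab c L v' : ℤ)| = (q k n : ℤ) - (Ed.sum c L e' : ℤ) := by
      rcases he' with he | he
      · exact rep_lab hg hv' he
      · rw [abs_sub_comm]; exact rep_lab hg hv' he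
    have h3 : e = e' := hg.inj e e' hv hv' (by omega)
    subst h3
    rcases he with he | he <;> rcases he' with he' | he'
    · obtain ⟨h4, h5⟩ := rep_unique he he'
      rw [h4, h5]
    · obtain ⟨h4, h5⟩ := rep_unique he he'
      rw [h4, h5, Sym2.eq_swap]
    · obtain ⟨h4, h5⟩ := rep_unique he he'
      rw [h4, h5, Sym2.eq_swap]
    · obtain ⟨h4, h5⟩ := rep_unique he he'
      rw [h4, h5]


/-! ### Books with `4 t + 3` pages -/

/-- The edges of the book with `k` pages. -/
def bookEdge {k : ℕ} : (Fin 2 × Fin k) ⊕ (Unit ⊕ Fin k) →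
    (Fin (k + 1) × Fin 2) × (Fin (k + 1) × Fin 2)
  | .inl (i, j) => ((0, i), (j.succ, i))
  | .inr (.inl _) => ((0, 0), (0, 1))
  | .inr (.inr j) => ((j.succ, 0), (j.succ, 1))

lemma bookEdge_adj {k : ℕ} (e : (Fin 2 × Fin k) ⊕ (Unit ⊕ Fin k)) :
    (stackedBook k 2).Adj (bookEdge e).1 (bookEdge e).2 := by
  rw [stackedBook, boxProd_adj, starGraph_adj, pathGraph_adj]
  rcases e with ⟨i, j⟩ | ⟨_⟩ | j
  · left
    exact ⟨⟨(Fin.succ_ne_zero j).symm, Or.inl rfl⟩, rfl⟩
  · right
    exact ⟨Or.inl rfl, rfl⟩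
  · right
    exact ⟨Or.inl rfl, rfl⟩

lemma bookEdge_inj {k : ℕ} {e e' : (Fin 2 × Fin k) ⊕ (Unit ⊕ Fin k)}
    (h : s((bookEdge e).1, (bookEdge e).2) = s((bookEdge e').1, (bookEdge e').2)) : e = e' := by
  rw [Sym2.eq_iff] at h
  rcases e with ⟨i, j⟩ | ⟨_⟩ | j <;> rcases e' with ⟨i', j'⟩ | ⟨_⟩ | j' <;>
    simp only [bookEdge, Prod.mk.injEq, Fin.ext_iff, Fin.val_succ, Fin.val_zero, Fin.val_one]
      at h
  · have h1 : i = i' := Fin.ext (by omega)
    have h2 : j = j' := Fin.ext (by omega)
    rw [h1, h2]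
  · omega
  · omega
  · omega
  · rfl
  · omega
  · omega
  · omega
  · have h2 : j = j' := Fin.ext (by omega)
    rw [h2]

theorem not_graceful_book (t : ℕ) : ¬ Graceful (stackedBook (4 * t + 3) 2) := by
  rintro ⟨f, hf, hle, hd⟩
  have hq : (stackedBook (4 * t + 3) 2).edgeSet.ncard = 12 * t + 10 := by
    rw [ncard_edges _ _ (by omega)]
    unfold q
    omega
  rw [hq] at hle
  -- the labels
  obtain ⟨w, hw⟩ : ∃ w : (Fin 2 × Fin (4 * t + 3)) ⊕ (Unit ⊕ Fin (4 * t + 3)) → ℕ,
      w = fun e => ((f (bookEdge e).1 : ℤ) - (f (bookEdge e).2 : ℤ)).natAbs := ⟨_, rfl⟩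
  have hwinj : Function.Injective w := by
    intro e e' he
    apply bookEdge_inj
    apply hd _ _ _ _ (bookEdge_adj e) (bookEdge_adj e')
    rw [hw] at he
    simp only at he
    rw [Int.abs_eq_natAbs, Int.abs_eq_natAbs, he]
  have hwmem : ∀ e, w e ∈ Finset.Icc 1 (12 * t + 10) := by
    intro e
    rw [Finset.mem_Icc, hw]
    have h1 : f (bookEdge e).1 ≠ f (bookEdge e).2 := fun h => (bookEdge_adj e).ne (hf h)
    have h2 := hle (bookEdge e).1
    have h3 := hle (bookEdge e).2
    simp only
    omega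
  have himg : Finset.univ.image w = Finset.Icc 1 (12 * t + 10) := by
    apply Finset.eq_of_subset_of_card_le
    · intro x hx
      obtain ⟨e, -, rfl⟩ := Finset.mem_image.1 hx
      exact hwmem e
    · rw [Finset.card_image_of_injective _ hwinj]
      simp only [Nat.card_Icc, Finset.card_univ, Fintype.card_sum, Fintype.card_prod,
        Fintype.card_fin, Fintype.card_unit]
      omega
  have hsum : ∑ e, w e = ∑ x ∈ Finset.Icc 1 (12 * t + 10), x := by
    rw [← himg, Finset.sum_image (fun a _ b _ h => hwinj h)]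
  have hsum2 : (∑ x ∈ Finset.Icc 1 (12 * t + 10), x) * 2 = (12 * t + 11) * (12 * t + 10) := by
    have h1 := Finset.sum_range_id_mul_two (12 * t + 11)
    have h2 : ∑ x ∈ Finset.range (12 * t + 11), x = ∑ x ∈ Finset.Icc 1 (12 * t + 10), x := by
      rw [Finset.range_eq_Ico, Finset.sum_eq_sum_Ico_succ_bot (by omega), zero_add, zero_add]
      rfl
    rw [← h2, h1]
    rfl
  have hpar : ∀ e, f (bookEdge e).1 + f (bookEdge e).2 =
      w e + 2 * min (f (bookEdge e).1) (f (bookEdge e).2) := by
    intro e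
    rw [hw]
    simp only
    omega
  have htot : ∑ e, (f (bookEdge e).1 + f (bookEdge e).2) =
      ∑ e, w e + 2 * ∑ e, min (f (bookEdge e).1) (f (bookEdge e).2) := by
    rw [Finset.mul_sum, ← Finset.sum_add_distrib]
    exact Finset.sum_congr rfl fun e _ => hpar e
  have htot2 : ∑ e : (Fin 2 × Fin (4 * t + 3)) ⊕ (Unit ⊕ Fin (4 * t + 3)),
      (f (bookEdge e).1 + f (bookEdge e).2) =
      2 * ((2 * t + 2) * (f (0, 0) + f (0, 1)) +
        ∑ j : Fin (4 * t + 3), (f (j.succ, 0) + f (j.succ, 1))) := by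
    rw [Fintype.sum_sum_type, Fintype.sum_sum_type, Fintype.sum_prod_type]
    simp only [bookEdge, Fin.sum_univ_two, Finset.sum_add_distrib, Finset.sum_const,
      Finset.card_univ, Fintype.card_fin, Fintype.card_unit, smul_eq_mul]
    ring
  rw [htot2] at htot
  rw [hsum] at htot
  have h3 : (12 * t + 11) * (12 * t + 10) = 4 * (36 * (t * t) + 63 * t + 27) + 2 := by ring
  omega

/-- **Main theorem.** The stacked book `S_{2m+1} × P_n` (`n ≥ 2`) is graceful except when `n = 2`
and `m` is odd. -/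
theorem result (m n : ℕ) (hn : 2 ≤ n) :
    Graceful (stackedBook (2 * m + 1) n) ↔ ¬ (n = 2 ∧ m % 2 = 1) := by
  constructor
  · rintro h ⟨rfl, hm⟩
    obtain ⟨t, rfl⟩ : ∃ t, m = 2 * t + 1 := ⟨m / 2, by omega⟩
    have h1 : 2 * (2 * t + 1) + 1 = 4 * t + 3 := by ring
    rw [h1] at h
    exact not_graceful_book t h
  · intro h
    obtain ⟨c, L, hg⟩ := exists_good (k := 2 * m + 1) (n := n) (by omega) (by omega) (by omega)
    exact graceful_of_good hg

end Pool.Agent.Results.MP_31789d_co.StackedBooks
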